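import Mathlib
import Pool.Agent.Run7.h978.Defs2
import Pool.Agent.Run7.h978.Geo10

set_option autoImplicit false

open scoped Manifold ContDiff
open Run7.h978

namespace Pool.Agent.Results.MP_157c12_gt.Rotational

/-- Let `x` be a rotational immersion of the sphere of dimension `n ≥ 2` into the Euclidean space
of dimension `n + 1`, and let `x` be of finite type, with the eigenvalues `μ i`. If `n ≥ 3`, or if
`n = 2` and the `μ i` are not resonant (this is automatic for at most two distinct eigenvalues and
excludes one relation between three of them in general), then the image of `x` is a round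
sphere. -/
theorem result {n : ℕ} (hn : 2 ≤ n) {x : USphere n → Eu (n + 1)} (hx : IsImmersion n x)
    (hr : IsRotational x) {k : ℕ} {μ : Fin k → ℝ} (hft : IsFiniteTypeWith n x μ)
    (hk : 3 ≤ n ∨ NonResonant μ) :
    ∃ (a : Eu (n + 1)) (R : ℝ), 0 < R ∧ Set.range x = Metric.sphere a R := by
  obtain ⟨N, rfl⟩ : ∃ N, n = N + 1 := ⟨n - 1, by omega⟩
  obtain ⟨c, u, hsum, hu, hne⟩ := hft
  obtain ⟨a, ha⟩ := rot_spherical3 (by omega) hx hr hsum hu hne
    (hk.imp (fun h => by omega) fun h => ⟨h.1, fun i j l _ _ _ h1 h2 h3 h4 =>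
      h.2 i j l h1 h2 (fun p => h3 p (Set.mem_univ _)) fun p => h4 p (Set.mem_univ _)⟩)
  have := sph_nontrivial (N + 1)
  obtain ⟨R, hR, hR2⟩ := range_sphere (by omega) hx ha
  exact ⟨a, R, hR, hR2⟩

end Pool.Agent.Results.MP_157c12_gt.Rotational
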