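import Mathlib
import Pool.Agent.Run7.h978.Defs
import Pool.Agent.Run7.h978.Nfr21

set_option autoImplicit false

open scoped Manifold ContDiff
open Run7.h978

namespace Pool.Agent.Results.MP_157c12_gt.SphereCriterion

/-- The leading form of the polynomial `F`, that is its homogeneous part of the highest degree, as
a complex polynomial. -/
noncomputable def leadingForm {N : ℕ} (F : MvPolynomial (Fin N) ℝ) : MvPolynomial (Fin N) ℂ :=
  MvPolynomial.map (algebraMap ℝ ℂ) (MvPolynomial.homogeneousComponent F.totalDegree F)

/-- The sum of the squares of the partial derivatives of `q`. -/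
noncomputable def gradSq {N : ℕ} (q : MvPolynomial (Fin N) ℂ) : MvPolynomial (Fin N) ℂ :=
  ∑ a, MvPolynomial.pderiv a q ^ 2

/-- The sum of the squares of the coordinates. -/
noncomputable def distSq (N : ℕ) : MvPolynomial (Fin N) ℂ :=
  ∑ a, MvPolynomial.X a ^ 2

/-- The linear form with the coefficients `v_a`. -/
noncomputable def linForm {N : ℕ} (v : Fin N → ℂ) : MvPolynomial (Fin N) ℂ :=
  ∑ a, MvPolynomial.C (v a) * MvPolynomial.X a

/-- `F` vanishes at every point `x p`, `p ∈ O`. -/
def VanishesOn {N : ℕ} {M : Type*} (F : MvPolynomial (Fin N) ℝ) (x : M → Eu N) (O : Set M) :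
    Prop :=
  ∀ p ∈ O, MvPolynomial.eval (fun a => x p a) F = 0

/-- One of the following conditions holds for the polynomial `G` in `n + 1` variables with the
leading form `g`.

* Every complex irreducible factor `q` of `g` which divides `∑ (∂q/∂x_a)²` is a constant multiple
  of `∑ x_a²`.
* The degree of `G` is odd, or the homogeneous part of `G` of the highest degree takes positive and
  negative values at real points.
* `n = 2`, and the degree of `G` is at most `5`.
* `n = 2`, and `j + k ≤ 2` whenever `g` is divisible by the product of the `j`-th power, `j ≥ 1`,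
  of an isotropic linear form and of the `k`-th power of `∑ x_a²`. -/
def Admissible {n : ℕ} (G : MvPolynomial (Fin (n + 1)) ℝ) : Prop :=
  (∀ q : MvPolynomial (Fin (n + 1)) ℂ, Irreducible q → q ∣ leadingForm G →
    q ∣ gradSq q → Associated q (distSq (n + 1))) ∨
  (Odd G.totalDegree ∨ ∃ y z : Fin (n + 1) → ℝ,
    0 < MvPolynomial.eval y (MvPolynomial.homogeneousComponent G.totalDegree G) ∧
      MvPolynomial.eval z (MvPolynomial.homogeneousComponent G.totalDegree G) < 0) ∨
  (n = 2 ∧ G.totalDegree ≤ 5) ∨
  (n = 2 ∧ ∀ (v : Fin (n + 1) → ℂ) (j k : ℕ), v ≠ 0 → ∑ a, v a ^ 2 = 0 → 1 ≤ j →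
    linForm v ^ j * distSq (n + 1) ^ k ∣ leadingForm G → j + k ≤ 2)

/-- Let `x` be an immersion of finite type of a compact connected `n`-manifold `M` into the
Euclidean space of dimension `n + 1`, `n ≥ 2`, and let some nonempty connected open set `O` be
mapped into `{F = 0}`, where `F` is a nonzero real polynomial all of whose irreducible factors are
admissible. Then `x` maps `O` into a round sphere, and if `O = M`, then the image of `x` is a round
sphere. -/
theorem result {n : ℕ} (hn : 2 ≤ n) {M : Type*} [TopologicalSpace M] [ChartedSpace (Eu n) M]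
    [IsManifold (𝓡 n) ∞ M] [CompactSpace M] [ConnectedSpace M] {x : M → Eu (n + 1)}
    (hx : IsImmersion n x) (hft : IsFiniteType n x) {O : Set M} (hO : IsOpen O)
    (hne : O.Nonempty) (hconn : IsPreconnected O) {F : MvPolynomial (Fin (n + 1)) ℝ} (hF : F ≠ 0)
    (hOF : VanishesOn F x O) (hadm : ∀ G, Irreducible G → G ∣ F → Admissible G) :
    ∃ (c : Eu (n + 1)) (r : ℝ), 0 < r ∧ (∀ p ∈ O, x p ∈ Metric.sphere c r) ∧
      (O = Set.univ → Set.range x = Metric.sphere c r) := by
  obtain ⟨c, r, hr, h⟩ := glue (by omega) hx.1.continuous hx hO hconn hne hF hOF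
    (fun G hG hGF V hV hVne hV0 => by
      rcases hadm G hG hGF with h | (h | h) | ⟨h2, h⟩ | ⟨h2, h⟩
      · obtain ⟨c, r, h1, h2, -⟩ := sphere_of_leading (by omega) hx hft hV hVne hG hV0 h
        exact ⟨c, r, h1, h2⟩
      · exact absurd h (no_odd (by omega) hx hft hV hVne hG hV0)
      · exact absurd h (no_sign (by omega) hx hft hV hVne hG hV0)
      · subst h2
        obtain ⟨c, r, h1, h2, -⟩ := sphere_of_low hx hft hV hVne hG hV0
          fun v j k hv hvv hj hdv => by
            have hf0 : MvPolynomial.homogeneousComponent G.totalDegree G ≠ 0 := by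
              have h1 := (top_weighted (1 : Fin 3 → ℕ) hG.ne_zero).2
              rw [MvPolynomial.weightedTotalDegree_one] at h1
              exact h1
            exact low_of_deg hf0 (MvPolynomial.homogeneousComponent_isHomogeneous _ G) h hv hvv hdv
        exact ⟨c, r, h1, h2⟩
      · subst h2
        obtain ⟨c, r, h1, h2, -⟩ := sphere_of_low hx hft hV hVne hG hV0 h
        exact ⟨c, r, h1, h2⟩)
  refine ⟨c, r, hr, h, fun hOu => ?_⟩
  exact range_eq_sphere (by omega) hx hr fun p => h p (by rw [hOu]; trivial)

end Pool.Agent.Results.MP_157c12_gt.SphereCriterion
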