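import Mathlib
import Pool.Agent.Run7.h978.Defs
import Pool.Agent.Run7.h978.Rev7

set_option autoImplicit false

open scoped Manifold ContDiff
open Run7.h978

namespace Pool.Agent.Results.MP_157c12_gt.SymmetricAlgebraic

/-- The sum of the squares of the coordinates `x_a`, `a ∈ S`. -/
noncomputable def sqSum {N : ℕ} (S : Finset (Fin N)) : MvPolynomial (Fin N) ℝ :=
  ∑ a ∈ S, MvPolynomial.X a ^ 2

/-- `F` vanishes at every point `x p`, `p ∈ O`. -/
def VanishesOn {N : ℕ} {M : Type*} (F : MvPolynomial (Fin N) ℝ) (x : M → Eu N) (O : Set M) :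
    Prop :=
  ∀ p ∈ O, MvPolynomial.eval (fun a => x p a) F = 0

/-- Let `x` be an immersion of finite type of a compact connected `n`-manifold `M` into the
Euclidean space of dimension `n + 1`, `n ≥ 2`, and let some nonempty open set `O` be mapped into
`{F = 0}`, where `F` is an irreducible real polynomial of the form `G (∑_{a ∈ S} x_a², Y)`; here
`S` is a set of at least two coordinates with a nonempty complement, and `Y` is
`∑_{a ∉ S} x_a²`, or `Y = x_b` if `b` is the only coordinate which is not in `S`. Then `x` maps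
`O` into a round sphere, and if `O = M`, then the image of `x` is a round sphere. -/
theorem result {n : ℕ} (hn : 2 ≤ n) {M : Type*} [TopologicalSpace M] [ChartedSpace (Eu n) M]
    [IsManifold (𝓡 n) ∞ M] [CompactSpace M] [ConnectedSpace M] {x : M → Eu (n + 1)}
    (hx : IsImmersion n x) (hft : IsFiniteType n x) {O : Set M} (hO : IsOpen O)
    (hne : O.Nonempty) {F : MvPolynomial (Fin (n + 1)) ℝ} (hF : Irreducible F)
    (hOF : VanishesOn F x O) {S : Finset (Fin (n + 1))} (hS : 2 ≤ S.card) (hS' : Sᶜ.Nonempty)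
    {Y : MvPolynomial (Fin (n + 1)) ℝ}
    (hY : Y = sqSum Sᶜ ∨ ∃ b, Sᶜ = {b} ∧ Y = MvPolynomial.X b) {G : MvPolynomial (Fin 2) ℝ}
    (hG : F = MvPolynomial.aeval ![sqSum S, Y] G) :
    ∃ (c : Eu (n + 1)) (r : ℝ), 0 < r ∧ (∀ p ∈ O, x p ∈ Metric.sphere c r) ∧
      (O = Set.univ → Set.range x = Metric.sphere c r) :=
  two_blocks (by omega) hx hft hO hne hF hOF hS hS' hY hG

end Pool.Agent.Results.MP_157c12_gt.SymmetricAlgebraic
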